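import Pool.Agent.Work.MP_223b32_es.Interface

/-!
# Block LEC: `lamC` as a sum over the elements of the extension
-/

namespace Pool.Agent.Work.ES

open Finset Polynomial

namespace LEC

variable {F E : Type} [Field F] [Fintype F] [Field E] [Fintype E] [Algebra F E]

omit [Fintype F] in
theorem minpoly_splits (x : E) : ((minpoly F x).map (algebraMap F E)).Splits :=
  Normal.splits inferInstance x

omit [Fintype F] in
/-- Every monic irreducible polynomial whose degree divides the degree of `E` is a minimal
polynomial of an element of `E`. -/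
theorem exists_root (π : F[X]) (hm : π.Monic) (hi : Irreducible π)
    (hd : π.natDegree ∣ Module.finrank F E) : ∃ x : E, minpoly F x = π := by
  have : Fact (Irreducible π) := ⟨hi⟩
  have h1 : Module.finrank F (AdjoinRoot π) = π.natDegree := by
    have := (AdjoinRoot.powerBasis hi.ne_zero).finrank
    rw [this, AdjoinRoot.powerBasis_dim]
  obtain ⟨φ⟩ := FiniteField.nonempty_algHom_of_finrank_dvd (F := F) (K := AdjoinRoot π) (L := E)
    (h1 ▸ hd)
  refine ⟨φ (AdjoinRoot.root π), ?_⟩
  symm
  refine minpoly.eq_of_irreducible_of_monic hi ?_ hm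
  rw [aeval_algHom_apply, AdjoinRoot.aeval_eq, AdjoinRoot.mk_self, map_zero]

theorem card_fiber [DecidableEq F[X]] (x : E) :
    (univ.filter fun y : E => minpoly F y = minpoly F x).card = (minpoly F x).natDegree := by
  classical
  have hint : IsIntegral F x := Algebra.IsIntegral.isIntegral x
  have hirr : Irreducible (minpoly F x) := minpoly.irreducible hint
  have hsep : (minpoly F x).Separable := Algebra.IsSeparable.isSeparable F x
  have h := card_rootSet_eq_natDegree (K := E) hsep (minpoly_splits x)
  rw [← h, ← Set.toFinset_card]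
  congr 1
  ext y
  simp only [mem_filter, mem_univ, true_and, Set.mem_toFinset]
  rw [mem_rootSet]
  constructor
  · intro hy
    refine ⟨hirr.ne_zero, ?_⟩
    rw [← hy]
    exact minpoly.aeval F y
  · rintro ⟨_, hy⟩
    exact (minpoly.eq_of_irreducible_of_monic hirr hy (minpoly.monic hint)).symm

end LEC

theorem stmt_LEC : Stmt_LEC := by
  intro F E _ _ _ _ _ χ
  classical
  set k := Module.finrank F E with hk
  have h1 : ∀ x : E, χ (minpoly F x ^ (k / (minpoly F x).natDegree)) =
      χ (minpoly F x) ^ (k / (minpoly F x).natDegree) := fun x => map_pow χ _ _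
  simp_rw [h1]
  rw [Finset.sum_comp (fun π : F[X] => χ π ^ (k / π.natDegree)) (fun x : E => minpoly F x)]
  have hset : {π : F[X] | π.Monic ∧ Irreducible π ∧ π.natDegree ∣ k} =
      ((univ.image fun x : E => minpoly F x : Finset F[X]) : Set F[X]) := by
    ext π
    simp only [Set.mem_ofPred_eq, coe_image, coe_univ, Set.image_univ, Set.mem_range]
    constructor
    · rintro ⟨hm, hi, hd⟩
      exact LEC.exists_root π hm hi hd
    · rintro ⟨x, rfl⟩
      have hint : IsIntegral F x := Algebra.IsIntegral.isIntegral x
      exact ⟨minpoly.monic hint, minpoly.irreducible hint, minpoly.degree_dvd hint⟩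
  rw [lamC, hset, finsum_mem_coe_finset]
  refine Finset.sum_congr rfl fun π hπ => ?_
  obtain ⟨x, _, rfl⟩ := Finset.mem_image.1 hπ
  rw [LEC.card_fiber x, nsmul_eq_mul]

end Pool.Agent.Work.ES
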